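import Pool.Agent.P.MP_74dd9d_nt.AE.Iter

namespace Pool.Agent.Results.MP_74dd9d_nt.AlmostAllExponents

open Pool.Agent.P.MP_74dd9d_nt

/-- For every `c ≥ 2`, every divisor `b` of `c - 1` and every `ε > 0` there is a finite set `C`
of primes above `c` which covers all but at most `ε l` of the exponents `n` modulo `l`, where `l`
is the least positive exponent with `c ^ l = 1` modulo all primes of `C`. -/
theorem result (c b : ℕ) (hc : 2 ≤ c) (hb : b ∣ c - 1) (ε : ℝ) (hε : 0 < ε) :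
    ∃ (C : Finset ℕ) (l : ℕ), (∀ q ∈ C, q.Prime ∧ c < q) ∧ 0 < l ∧
      (∀ m : ℕ, (∀ q ∈ C, c ^ m ≡ 1 [MOD q]) ↔ l ∣ m) ∧
      (Set.ncard {n : ℕ | n < l ∧ ∀ q ∈ C, jacobiSym (Delta c b n) q = -1} : ℝ) ≤ ε * l := by
  obtain ⟨i, hi⟩ := exists_pow_lt_of_lt_one hε (by norm_num : (2 / 3 : ℝ) < 1)
  obtain ⟨C, l, h1, h2, h3, h4⟩ := AE.iter hc hb i
  refine ⟨C, l, h1, h2, h3, le_trans (le_of_eq ?_) (h4.trans (by gcongr))⟩
  rw [← Set.ncard_coe_finset]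
  simp

end Pool.Agent.Results.MP_74dd9d_nt.AlmostAllExponents
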