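import Pool.Agent.P.MP_74dd9d_nt.Cover

namespace Pool.Agent.Results.MP_74dd9d_nt.AlmostAllPrimes

open Pool.Agent.P.MP_74dd9d_nt Filter Topology

/-- For almost all primes `c` (relative density one among the primes), every divisor `b` of `c - 1`
has a quadratic residue cover, consisting of a single prime and with `l ≤ 2`. -/
theorem result : Tendsto (fun x : ℕ => (Set.ncard {c : ℕ | c ≤ x ∧ c.Prime ∧
      ¬ ∀ b : ℕ, 1 ≤ b → b ∣ c - 1 → ∃ l ≤ 2, ∃ q : ℕ, IsQRC c b l {q}} : ℝ) /
    Nat.primeCounting x) atTop (𝓝 0) :=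
  density

end Pool.Agent.Results.MP_74dd9d_nt.AlmostAllPrimes
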