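import Pool.Agent.P.MP_74dd9d_nt.PS.Fin

namespace Pool.Agent.Results.MP_74dd9d_nt.PowerSaving

open Pool.Agent.P.MP_74dd9d_nt Filter

/-- Power saving for the exceptional set: there is `η > 0` such that for all large `x` one set `C`
of primes `q ≤ (log x)^2` is a quadratic residue cover of the family `Δ_n(c, b)` for every divisor
`b` of `c - 1`, for all but at most `x^(1 - η)` primes `c ≤ x`. -/
theorem result : ∃ η : ℝ, 0 < η ∧ ∀ᶠ x : ℕ in atTop, ∃ C : Finset ℕ,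
    (∀ q ∈ C, (q : ℝ) ≤ Real.log x ^ 2) ∧ (Set.ncard {c : ℕ | c ≤ x ∧ c.Prime ∧
      ¬ ∀ b : ℕ, 1 ≤ b → b ∣ c - 1 → ∃ l, IsQRC c b l C} : ℝ) ≤ (x : ℝ) ^ (1 - η) :=
  PS.saving

end Pool.Agent.Results.MP_74dd9d_nt.PowerSaving
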